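import Mathlib
import Pool.Agent.H932R7.Final2
import Pool.Agent.H248R5.Gen

set_option autoImplicit false

/-!
# Arbitrary bounded multiplicities: smooth general members in degrees of order `m ^ (3 / 2)`

General points of the complex projective plane with arbitrary multiplicities `w i ≤ m`. Let
`1 ≤ k ≤ m` be such that for every point of multiplicity `w i > k` the points of smaller
multiplicities (`≥ 2`, or `≥ 1` if `k = 1`) satisfy `∑ w j (w j + 1) ≥ 2 w i (w i + 1) (w i + 2)`
(no condition if `k = m`). Let `A = ∑ (w i + 1).choose 2`. If `A ≤ (d + 1).choose 2` and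
`m (m + 1) (m + 6 √m + 10) ≤ max (d (d + 1), A)`, and either `A + 2 (k + 1).choose 3` (simple
points need not be counted in `A` here) is at most `(d + 1).choose 2` or no multiplicity lies
strictly between `1` and `k`, then the linear system `|d H - ∑ w i E i|` is nonspecial and its
general member is a smooth curve on the blow-up.
-/

namespace Pool.Agent.H248R5.Kept.BoundedSmooth

open Pool.Agent.H248R5

theorem result (n m k : ℕ) (hk : 0 < k) (hkm : k ≤ m) (w : Fin n → ℕ) (hw : ∀ i, w i ≤ m)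
    (hfreq : ∀ i, k < w i → 2 * (w i * (w i + 1) * (w i + 2)) ≤
      ∑ j ∈ Finset.univ.filter (fun j => min 2 k ≤ w j ∧ w j < w i), w j * (w j + 1)) :
    ∃ F : MvPolynomial (Fin n × Fin 2) ℂ, F ≠ 0 ∧
      ∀ P : Fin n → Fin 2 → ℂ,
        MvPolynomial.eval (fun ij : Fin n × Fin 2 => P ij.1 ij.2) F ≠ 0 →
        ∀ d : ℕ, 0 < d →
          (m : ℝ) * (m + 1) * (m + 6 * Real.sqrt m + 10) ≤
              ((max (d * (d + 1)) (∑ i, (w i + 1).choose 2) : ℕ) : ℝ) →
          ∑ i, (w i + 1).choose 2 ≤ (d + 1).choose 2 →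
          (∑ i ∈ Finset.univ.filter (fun i => w i ≠ 1), (w i + 1).choose 2
              + 2 * (k + 1).choose 3 ≤ (d + 1).choose 2 ∨
            ∀ i, w i ≤ 1 ∨ k ≤ w i) →
          Module.finrank ℂ ↥(forms w P d) = (d + 2).choose 2 - ∑ i, (w i + 1).choose 2 ∧
          GeneralMember (forms w P d) (SmoothMember w P) := by
  obtain ⟨F, hF, hF'⟩ := H932R7.bounded2 ℂ hk hkm hw hfreq
  refine ⟨F.map (algebraMap ℚ ℂ) * disc ℂ n, mul_ne_zero (H932R3.map_ne_zero_of hF)
    (disc_ne ℂ n), fun P hP d hd h1 hA h2 => ?_⟩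
  rw [map_mul, MvPolynomial.eval_map] at hP
  have h3 := hF' P (left_ne_zero_of_mul hP)
  have hc : (d + 1).choose 2 ≤ (d + 2).choose 2 := Nat.choose_le_choose 2 (by omega)
  refine ⟨h3 d ⟨le_trans h1 ?_, ?_⟩, general_smooth' (inj_of_disc (right_ne_zero_of_mul hP)) hd
    (h3 (d - 1) ⟨?_, ?_⟩) hA⟩
  · have h4 : max (d * (d + 1)) (∑ i, (w i + 1).choose 2) ≤
        max ((d + 1) * (d + 2)) (∑ i, (w i + 1).choose 2) :=
      max_le_max (Nat.mul_le_mul (by omega) (by omega)) le_rfl
    exact_mod_cast h4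
  · rcases h2 with h2 | h2
    · exact Or.inr (Or.inl (le_trans h2 hc))
    · exact Or.inr (Or.inr h2)
  · have h4 : (d - 1 + 1) * (d - 1 + 2) = d * (d + 1) := by
      obtain ⟨e, rfl⟩ : ∃ e, d = e + 1 := ⟨d - 1, by omega⟩
      rw [Nat.add_sub_cancel]
    rw [h4]
    exact h1
  · have h4 : d - 1 + 2 = d + 1 := by omega
    rw [h4]
    rcases h2 with h2 | h2
    · exact Or.inr (Or.inl h2)
    · exact Or.inr (Or.inr h2)

end Pool.Agent.H248R5.Kept.BoundedSmooth
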