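import Mathlib
import Pool.Agent.H932R6.FinalR
import Pool.Agent.H248R5.Gen

set_option autoImplicit false

/-!
# Near-uniform multiplicities up to `n ^ k`: smooth general members in all degrees but three

For every `k` and `ε > 0` there is an `N` such that for `n ≥ N` general points of the complex
projective plane with multiplicities `w i ∈ {m, m + 1}`, `1 ≤ m ≤ n ^ k`: put
`σ = √n + 2 (∑ w i) / √n`. The linear system `|d H - ∑ w i E i|` is nonspecial if
`|2 d + 3 - σ| ≥ ε`, and its general member is a smooth curve on the blow-up if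
`|2 d + 1 - σ| ≥ ε` and `∑ (w i + 1).choose 2 ≤ (d + 1).choose 2`.
-/

namespace Pool.Agent.H248R5.Kept.PolynomialRangeSmooth

open Pool.Agent.H248R5

theorem result (k : ℕ) (ε : ℝ) (hε : 0 < ε) : ∃ N : ℕ, ∀ n : ℕ, N ≤ n → ∀ m : ℕ, 0 < m → m ≤ n ^ k →
    ∀ w : Fin n → ℕ, (∀ i, w i = m ∨ w i = m + 1) →
    ∃ F : MvPolynomial (Fin n × Fin 2) ℂ, F ≠ 0 ∧
      ∀ P : Fin n → Fin 2 → ℂ,
        MvPolynomial.eval (fun ij : Fin n × Fin 2 => P ij.1 ij.2) F ≠ 0 →
        ∀ d : ℕ,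
          (ε ≤ |2 * (d : ℝ) + 3 - (Real.sqrt n + 2 * (∑ i, (w i : ℝ)) / Real.sqrt n)| →
            Module.finrank ℂ ↥(forms w P d) = (d + 2).choose 2 - ∑ i, (w i + 1).choose 2) ∧
          (ε ≤ |2 * (d : ℝ) + 1 - (Real.sqrt n + 2 * (∑ i, (w i : ℝ)) / Real.sqrt n)| →
            ∑ i, (w i + 1).choose 2 ≤ (d + 1).choose 2 →
              GeneralMember (forms w P d) (SmoothMember w P)) := by
  obtain ⟨N, hN, h⟩ := H932R6.exists_data (k + 1) hε
  refine ⟨N, fun n hn m hm hmk w hw => ?_⟩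
  obtain ⟨u, v, δ, σ, hD⟩ := h n hn
  obtain ⟨F, hF, hF'⟩ := H932R6.win_expR (L := ℂ) hD (by omega) hm
    (by
      have h2 : 1 ≤ n ^ k := Nat.one_le_pow _ _ (by omega)
      have h3 : n ^ (k + 1) = n ^ k * n := pow_succ n k
      have h4 : n ^ k * 2 ≤ n ^ k * n := Nat.mul_le_mul_left _ (by omega)
      omega) hw
  have h0 : ∀ P : Fin n → Fin 2 → ℂ,
      MvPolynomial.aeval (fun ij : Fin n × Fin 2 => P ij.1 ij.2) F ≠ 0 → ∀ d : ℕ,
      ε ≤ |2 * (d : ℝ) + 3 - (Real.sqrt n + 2 * (∑ i, (w i : ℝ)) / Real.sqrt n)| →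
      Module.finrank ℂ ↥(forms w P d) = (d + 2).choose 2 - ∑ i, (w i + 1).choose 2 := by
    intro P hP d hd
    refine hF' P hP d ?_
    change ε ≤ |2 * (d : ℝ) + 3 - Real.sqrt n - 2 * (∑ i, (w i : ℝ)) / Real.sqrt n|
    rwa [sub_sub]
  refine ⟨F.map (algebraMap ℚ ℂ) * disc ℂ n, mul_ne_zero (H932R3.map_ne_zero_of hF)
    (disc_ne ℂ n), fun P hP d => ?_⟩
  rw [map_mul, MvPolynomial.eval_map] at hP
  have h1 := h0 P (left_ne_zero_of_mul hP)
  refine ⟨h1 d, fun hd hA => ?_⟩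
  have hd0 : 0 < d := by
    rcases Nat.eq_zero_or_pos d with h0 | h0
    · exfalso
      subst h0
      have h2 : (w ⟨0, by omega⟩ + 1).choose 2 ≤ ∑ i, (w i + 1).choose 2 :=
        Finset.single_le_sum (f := fun i => (w i + 1).choose 2) (fun i _ => Nat.zero_le _)
          (Finset.mem_univ _)
      have h3 : 0 < (w ⟨0, by omega⟩ + 1).choose 2 := by
        refine Nat.choose_pos ?_
        rcases hw ⟨0, by omega⟩ with h | h <;> omega
      have h4 : (0 + 1).choose 2 = 0 := rfl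
      omega
    · exact h0
  refine general_smooth' (inj_of_disc (right_ne_zero_of_mul hP)) hd0 (h1 (d - 1) ?_) hA
  have h5 : ((d - 1 : ℕ) : ℝ) = d - 1 := by
    rw [Nat.cast_sub hd0, Nat.cast_one]
  rw [h5]
  convert hd using 2
  ring

end Pool.Agent.H248R5.Kept.PolynomialRangeSmooth
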